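import Pool.Agent.Y990.SH.Stm1
import Pool.Agent.W333.PC.Harris
import Pool.Agent.W400.PC.PT

set_option autoImplicit false

open MeasureTheory Set

/-! SH-IID and SH-CFKG: product Bernoulli measures. -/

namespace Pool.Agent.Y761.SH

open Pool.Agent.W783.PC

/-- SH-IID. -/
theorem iid : Pool.Agent.Y990.SH.S_iid := by
  classical
  intro ι T _ p E τ hτ x
  have hmE : ∀ y : E → Bool, MeasurableSet {ω : ι → Bool | (fun c : E => ω c) = y} := by
    intro y
    refine Pool.Agent.W45.PC.s_depmeas ι E _ ?_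
    intro ω ω' h
    simp only [mem_ofPred_eq]
    have : (fun c : E => ω c) = fun c : E => ω' c := funext fun c => h c c.2
    rw [this]
  have hS : ∀ t, DepOn {ω : ι → Bool | (fun c : E => ω (τ t c)) = x t}
      ((E.image (τ t) : Finset ι) : Set ι) := by
    intro t ω ω' h
    simp only [mem_ofPred_eq]
    have : (fun c : E => ω (τ t c)) = fun c : E => ω' (τ t c) :=
      funext fun c => h (τ t c) (by simp)
    rw [this]
  have hF := Pool.Agent.W45.PC.s_indepF ι (fun _ => p) T Finset.univ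
    (fun t => ((E.image (τ t) : Finset ι) : Set ι))
    (fun t => {ω : ι → Bool | (fun c : E => ω (τ t c)) = x t}) (fun t _ => hS t)
    (by
      intro t _ t' _ htt
      rw [Finset.disjoint_coe, Finset.disjoint_left]
      intro c hc hc'
      rw [Finset.mem_image] at hc hc'
      obtain ⟨a, ha, rfl⟩ := hc
      obtain ⟨b, hb, hb'⟩ := hc'
      exact hτ t t' htt a ha b hb hb'.symm)
    (fun t _ => Pool.Agent.W45.PC.s_depmeas ι _ _ (hS t))
  have hset : {ω : ι → Bool | ∀ t, (fun c : E => ω (τ t c)) = x t} =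
      ⋂ t ∈ (Finset.univ : Finset T), {ω : ι → Bool | (fun c : E => ω (τ t c)) = x t} := by
    ext ω; simp
  rw [hset, measureReal_def, hF, ENNReal.toReal_prod]
  refine Finset.prod_congr rfl fun t _ => ?_
  have := Pool.Agent.W400.PC.s_equiv ι (fun _ => p) (τ t) _ (hmE (x t))
  rw [measureReal_def, this]
  rfl

/-- Harris for two decreasing events. -/
theorem harris_dec {ι : Type} (r : ι → unitInterval) (F : Finset ι) (A B : Set (ι → Bool))
    (hA : DepOn A (F : Set ι)) (hB : DepOn B (F : Set ι)) (hA' : Inc Aᶜ) (hB' : Inc Bᶜ) :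
    (pm r).real A * (pm r).real B ≤ (pm r).real (A ∩ B) := by
  have hmA : MeasurableSet A := Pool.Agent.W45.PC.s_depmeas ι F A hA
  have hmB : MeasurableSet B := Pool.Agent.W45.PC.s_depmeas ι F B hB
  have hAc : DepOn Aᶜ (F : Set ι) := fun ω ω' h => not_congr (hA ω ω' h)
  have hBc : DepOn Bᶜ (F : Set ι) := fun ω ω' h => not_congr (hB ω ω' h)
  have h := Pool.Agent.W333.PC.s_harris ι r F Aᶜ Bᶜ hAc hBc hA' hB'
  have e1 : (pm r).real Aᶜ = 1 - (pm r).real A := probReal_compl_eq_one_sub hmA
  have e2 : (pm r).real Bᶜ = 1 - (pm r).real B := probReal_compl_eq_one_sub hmB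
  have e3 : (pm r).real (Aᶜ ∩ Bᶜ) = 1 - (pm r).real (A ∪ B) := by
    rw [← compl_union, probReal_compl_eq_one_sub (hmA.union hmB)]
  have e4 : (pm r).real (A ∪ B) + (pm r).real (A ∩ B) = (pm r).real A + (pm r).real B :=
    measureReal_union_add_inter hmB
  rw [e1, e2, e3] at h
  nlinarith

/-- Harris for finitely many decreasing events. -/
theorem harris_decF {ι κ : Type} (r : ι → unitInterval) (F : Finset ι) (N : κ → Set (ι → Bool))
    (hN : ∀ k, DepOn (N k) (F : Set ι)) (hN' : ∀ k, Inc (N k)ᶜ) (s : Finset κ) :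
    ∏ k ∈ s, (pm r).real (N k) ≤ (pm r).real {ω | ∀ k ∈ s, ω ∈ N k} := by
  classical
  induction s using Finset.induction_on with
  | empty => simp
  | insert a s ha ih =>
    rw [Finset.prod_insert ha]
    have hd : DepOn {ω | ∀ k ∈ s, ω ∈ N k} (F : Set ι) := by
      intro ω ω' h
      exact forall_congr' fun k => forall_congr' fun _ => hN k ω ω' h
    have hi : Inc {ω | ∀ k ∈ s, ω ∈ N k}ᶜ := by
      intro ω ω' h h1 h2
      apply h1
      intro k hk
      by_contra h3
      exact hN' k ω ω' h h3 (h2 k hk)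
    have h1 := harris_dec r F (N a) _ (hN a) hd (hN' a) hi
    have h2 : N a ∩ {ω | ∀ k ∈ s, ω ∈ N k} = {ω | ∀ k ∈ insert a s, ω ∈ N k} := by
      ext ω; simp
    rw [h2] at h1
    refine le_trans ?_ h1
    exact mul_le_mul_of_nonneg_left ih measureReal_nonneg

/-- SH-CFKG. -/
theorem cfkg : Pool.Agent.Y990.SH.S_cfkg := by
  classical
  intro ι κ _ _ r E F η N hN hN'
  set B : Set (ι → Bool) := {ω | ∀ c ∈ E, ω c = η c} with hB
  set sub : (ι → Bool) → ι → Bool := fun ω c => if c ∈ E then η c else ω c with hsub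
  set N' : κ → Set (ι → Bool) := fun k => {ω | sub ω ∈ N k} with hN1
  have hsubB : ∀ ω ∈ B, sub ω = ω := by
    intro ω hω
    funext c
    by_cases hc : c ∈ E
    · simp only [hsub, if_pos hc]; exact (hω c hc).symm
    · simp only [hsub, if_neg hc]
  have hdep : ∀ k, DepOn (N' k) ((F \ E : Finset ι) : Set ι) := by
    intro k ω ω' h
    refine hN k _ _ fun c hc => ?_
    by_cases hcE : c ∈ E
    · simp only [hsub, if_pos hcE]
    · simp only [hsub, if_neg hcE]
      exact h c (by simpa using ⟨hc, hcE⟩)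
  have hinc : ∀ k, Inc (N' k)ᶜ := by
    intro k ω ω' h h1
    refine hN' k (sub ω) (sub ω') (fun c => ?_) h1
    by_cases hcE : c ∈ E
    · simp only [hsub, if_pos hcE]; exact id
    · simp only [hsub, if_neg hcE]; exact h c
  have hBdep : DepOn B (E : Set ι) := by
    intro ω ω' h
    exact forall_congr' fun c => forall_congr' fun hc => by rw [h c hc]
  have hBm : MeasurableSet B := Pool.Agent.W45.PC.s_depmeas ι E B hBdep
  have hdisj : Disjoint ((F \ E : Finset ι) : Set ι) (E : Set ι) := by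
    rw [Finset.disjoint_coe]
    exact Finset.sdiff_disjoint
  have hind : ∀ A : Set (ι → Bool), DepOn A ((F \ E : Finset ι) : Set ι) →
      (pm r).real (A ∩ B) = (pm r).real A * (pm r).real B := by
    intro A hA
    have := Pool.Agent.W45.PC.s_indep ι r _ _ A B hA hBdep hdisj
      (Pool.Agent.W45.PC.s_depmeas ι _ A hA) hBm
    rw [measureReal_def, this, ENNReal.toReal_mul]
    rfl
  have hk : ∀ k, (pm r).real (N k ∩ B) = (pm r).real (N' k) * (pm r).real B := by
    intro k
    rw [← hind (N' k) (hdep k)]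
    congr 1
    ext ω
    constructor
    · rintro ⟨h1, h2⟩
      exact ⟨by show sub ω ∈ N k; rwa [hsubB ω h2], h2⟩
    · rintro ⟨h1, h2⟩
      have h3 : sub ω ∈ N k := h1
      rw [hsubB ω h2] at h3
      exact ⟨h3, h2⟩
  have hall : (pm r).real ({ω | ∀ k, ω ∈ N k} ∩ B) =
      (pm r).real {ω | ∀ k ∈ (Finset.univ : Finset κ), ω ∈ N' k} * (pm r).real B := by
    rw [← hind {ω | ∀ k ∈ (Finset.univ : Finset κ), ω ∈ N' k}
      (fun ω ω' h => forall_congr' fun k => forall_congr' fun _ => hdep k ω ω' h)]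
    congr 1
    ext ω
    constructor
    · rintro ⟨h1, h2⟩
      exact ⟨fun k _ => by show sub ω ∈ N k; rw [hsubB ω h2]; exact h1 k, h2⟩
    · rintro ⟨h1, h2⟩
      refine ⟨fun k => ?_, h2⟩
      have h3 : sub ω ∈ N k := h1 k (Finset.mem_univ k)
      rwa [hsubB ω h2] at h3
  have hH := harris_decF r (F \ E) N' hdep hinc Finset.univ
  rw [hall]
  simp only [hk]
  rw [Finset.prod_mul_distrib, Finset.prod_const, Finset.card_univ]
  have hn : Fintype.card κ = (Fintype.card κ - 1) + 1 :=
    (Nat.sub_add_cancel (Fintype.card_pos (α := κ))).symm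
  have hb : (0 : ℝ) ≤ (pm r).real B := measureReal_nonneg
  calc (∏ k, (pm r).real (N' k)) * (pm r).real B ^ Fintype.card κ
      ≤ (pm r).real {ω | ∀ k ∈ (Finset.univ : Finset κ), ω ∈ N' k} *
        (pm r).real B ^ Fintype.card κ := mul_le_mul_of_nonneg_right hH (pow_nonneg hb _)
    _ = _ := by
      conv_lhs => rw [hn, pow_succ]
      ring

end Pool.Agent.Y761.SH
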